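import Pool.Agent.H16.FK.TargetsA

/-!
# Hub cells for the enriched types
-/

set_option autoImplicit false

namespace Pool.Agent.H69.FK

open Set Pool.Agent.H75.HCI Pool.Agent.H16.FK

theorem sel_swap {α : Type} (u p : List α) :
    sel (u ++ p) ((List.range p.length).map (fun i => u.length + i) ++ List.range u.length) =
      p ++ u := by
  unfold sel
  rw [List.filterMap_append, List.filterMap_map]
  congr 1
  · have h1 : List.filterMap ((fun i => (u ++ p)[i]?) ∘ fun i => u.length + i)
        (List.range p.length) = List.filterMap (fun i => p[i]?) (List.range p.length) := by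
      refine List.filterMap_congr fun i _ => ?_
      show (u ++ p)[u.length + i]? = p[i]?
      rw [List.getElem?_append_right (by omega), Nat.add_sub_cancel_left]
    rw [h1]
    exact sel_range p
  · have h1 : List.filterMap (fun i => (u ++ p)[i]?) (List.range u.length) =
        List.filterMap (fun i => u[i]?) (List.range u.length) := by
      refine List.filterMap_congr fun i hi => ?_
      rw [List.mem_range] at hi
      exact List.getElem?_append_left hi
    rw [h1]
    exact sel_range u

section

variable {kx k : ℕ} {L : Type} {T : List (Idx kx k) → L}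

theorem ft_swap (hT : FTx T) (u p q : List (Idx kx k)) (hpq : p.length = q.length)
    (h : T (u ++ p) = T (u ++ q)) : T (p ++ u) = T (q ++ u) := by
  have h1 := hT (u ++ p) (u ++ q)
    ((List.range p.length).map (fun i => u.length + i) ++ List.range u.length)
    (by rw [List.length_append, List.length_append, hpq]) h
  rw [sel_swap] at h1
  rw [hpq, sel_swap] at h1
  exact h1

/-- the shift of the chunks -/
def shf (p : Idx kx k) : Idx kx k := (p.1 + 1, p.2)

theorem shf_pat (hT : PatInv T) (l : List (Idx kx k)) : T (l.map shf) = T l := by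
  refine hT shf univ ⟨fun p _ => rfl, fun p _ q _ => ?_, ?_⟩ l fun x _ => mem_univ x
  · show p.1 + 1 < q.1 + 1 ↔ p.1 < q.1
    omega
  · intro p _ q _ _ u u' v v' hu hv hu' hv'
    have h1 : (shf p).2 = p.2 := rfl
    have h2 : (shf q).2 = q.2 := rfl
    rw [h1, hu] at hu'
    rw [h2, hv] at hv'
    rw [Sum.inr.inj hu', Sum.inr.inj hv']

theorem shf_prt (i m : ℕ) (a : List (Fin k)) :
    (prt i m a : List (Idx kx k)).map shf = prt (i + 1) m a := by
  unfold prt
  rw [List.map_map]
  rfl

theorem shf_hub (i : ℕ) (b : List (Fin kx)) :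
    (hub i b : List (Idx kx k)).map shf = hub (i + 1) b := by
  unfold hub
  rw [List.map_map]
  rfl

theorem shf_frs (n : ℕ) (A : List (List (Fin k))) :
    (frs n A : List (Idx kx k)).map shf = frs (n + 1) A := by
  unfold frs
  rw [List.map_flatten, List.map_map]
  congr 1
  refine List.map_congr_left fun q _ => ?_
  exact shf_prt n q.2 q.1

/-- the rows of the fresh parts -/
def frq (c : ℕ) (A : List (List (Fin k))) : List (ℕ × ℕ × List (Fin k)) :=
  A.zipIdx.map fun q => (c, q.2, q.1)

theorem frq_frs (c : ℕ) (A : List (List (Fin k))) :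
    ((frq c A).map fun q => prt q.1 q.2.1 q.2.2).flatten = (frs c A : List (Idx kx k)) := by
  unfold frq frs
  rw [List.map_map]
  rfl

theorem frq_snd (c : ℕ) (A : List (List (Fin k))) : ((frq c A).map fun q => q.2.2) = A := by
  unfold frq
  rw [List.map_map]
  exact List.zipIdx_map_fst 0 A

theorem frq_nodup (c : ℕ) (A : List (List (Fin k))) :
    ((frq c A).map fun q => (q.1, q.2.1)).Nodup := by
  unfold frq
  rw [List.map_map]
  have h1 : (A.zipIdx.map Prod.snd).Nodup := by
    rw [List.zipIdx_map_snd]
    exact List.nodup_range'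
  have h2 : (A.zipIdx.map ((fun q : ℕ × ℕ × List (Fin k) => (q.1, q.2.1)) ∘
      fun q => (c, q.2, q.1))) = (A.zipIdx.map Prod.snd).map fun n => (c, n) := by
    rw [List.map_map]
    rfl
  rw [h2]
  exact h1.map fun x y hxy => (Prod.ext_iff.1 hxy).2

theorem frq_fst (c : ℕ) (A : List (List (Fin k))) : ∀ q ∈ frq c A, q.1 = c := by
  intro q hq
  unfold frq at hq
  obtain ⟨x, _, rfl⟩ := List.mem_map.1 hq
  rfl

/-- the enriched type with the fresh parts in the chunk `c` -/
theorem tp_chunk (hTPW : T_TPW) (hT : AX T) (l : List (Idx kx k)) (A : List (List (Fin k)))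
    (hA : Good A) (c : ℕ) (hl : ∀ m, Miss c m l) : TP T l A = T (l ++ frs c A) := by
  have h1 := hTPW kx k L T hT l (frq c A) (frq_nodup c A)
    (fun q hq => by rw [frq_fst c A q hq]; exact hl _) (by rw [frq_snd]; exact hA)
  rw [frq_frs, frq_snd] at h1
  exact h1.symm

theorem miss_hub (c m i : ℕ) (b : List (Fin kx)) : Miss c m (hub i b : List (Idx kx k)) := by
  intro y hy
  unfold hub at hy
  obtain ⟨x, _, hx⟩ := List.mem_map.1 hy
  exact Sum.inl_ne_inr (Prod.ext_iff.1 hx).2

theorem miss_prt (c m i m' : ℕ) (a : List (Fin k)) (h : i ≠ c) :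
    Miss c m (prt i m' a : List (Idx kx k)) := by
  intro y hy
  unfold prt at hy
  obtain ⟨x, _, hx⟩ := List.mem_map.1 hy
  exact h (Prod.ext_iff.1 hx).1

theorem miss_row (c m i m' : ℕ) (h : i ≠ c) : Miss c m (row i m' : List (Idx kx k)) :=
  miss_prt c m i m' _ h

theorem shf_row (i m : ℕ) : (row i m : List (Idx kx k)).map shf = row (i + 1) m :=
  shf_prt i m _

theorem blw_frs (A : List (List (Fin k))) : Blw 1 (frs 0 A : List (Idx kx k)) := by
  intro p hp
  unfold frs at hp
  obtain ⟨l, hl, hpl⟩ := List.mem_flatten.1 hp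
  obtain ⟨q, _, rfl⟩ := List.mem_map.1 hl
  unfold prt at hpl
  obtain ⟨y, _, rfl⟩ := List.mem_map.1 hpl
  exact Nat.zero_lt_one

end

theorem pf_HBL (hTPW : T_TPW) : T_HBL := by
  intro kx k L T hT hL J
  constructor
  · rintro ⟨h1, h2, h3⟩
    refine ⟨h1, h2, ?_⟩
    have h4 := congrFun h3 []
    have h5 : ∀ l : List (Idx kx k), TP T l [] = T l := by
      intro l
      unfold TP
      split_ifs
      · unfold frs
        rw [List.zipIdx_nil, List.map_nil, List.flatten_nil, List.append_nil]
      · rfl
    rw [h5, h5] at h4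
    exact h4
  · rintro ⟨h1, h2, h3⟩
    refine ⟨h1, h2, ?_⟩
    funext A
    by_cases hA : Good A
    · have hrow : ∀ i m : ℕ, (row i m : List (Idx kx k)) = prt i m (List.finRange k) :=
        fun _ _ => rfl
      have e1 : TP T (hub 0 J) A = TP T (hub 1 J) A := by
        rw [tp_chunk hTPW hT _ A hA 1 (fun m => miss_hub 1 m 0 J),
          tp_chunk hTPW hT _ A hA 2 (fun m => miss_hub 2 m 1 J),
          ← shf_pat hT.pat (hub 0 J ++ frs 1 A), List.map_append, shf_hub, shf_frs]
      have e2 : TP T (row 0 0) A = TP T (row 1 0) A := by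
        rw [tp_chunk hTPW hT _ A hA 1 (fun m => miss_row 1 m 0 0 (by omega)),
          tp_chunk hTPW hT _ A hA 2 (fun m => miss_row 2 m 1 0 (by omega)),
          ← shf_pat hT.pat (row 0 0 ++ frs 1 A), List.map_append, shf_row, shf_frs]
      have e3 : T (hub 1 J) = T (row 0 0) := by
        rw [← h3, ← shf_pat hT.pat (hub 0 J), shf_hub]
      have hab : Abv 1 (hub 1 J : List (Idx kx k)) := by
        intro p hp
        unfold hub at hp
        obtain ⟨x, _, rfl⟩ := List.mem_map.1 hp
        exact le_refl 1
      have hnd : (hub 1 J : List (Idx kx k)).Nodup := by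
        unfold hub
        exact h1.map fun x y hxy => Sum.inl.inj (Prod.ext_iff.1 hxy).2
      have hlen : (hub 1 J : List (Idx kx k)).length = k := by
        unfold hub
        rw [List.length_map, h2]
      have e4 := hL 1 (frs 0 A) (hub 1 J) (blw_frs A) hab hnd hlen e3
      have e5 := ft_swap hT.ft (frs 0 A) (hub 1 J) (row 1 0) (by
        rw [hlen, hrow]
        unfold prt
        rw [List.length_map, List.length_finRange]) e4
      rw [e1, e2, tp_chunk hTPW hT _ A hA 0 (fun m => miss_hub 0 m 1 J),
        tp_chunk hTPW hT _ A hA 0 (fun m => miss_row 0 m 1 0 (by omega))]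
      exact e5
    · unfold TP
      rw [if_neg hA, if_neg hA]
      exact h3

end Pool.Agent.H69.FK
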