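import Pool.Agent.H16.FK.TargetsA

/-!
# The split case for the types themselves
-/

set_option autoImplicit false

namespace Pool.Agent.H69.FK

open Set Pool.Agent.H75.HCI Pool.Agent.H16.FK

/-- The enriched types have isomorphisms with growing sizes, too. -/
theorem coll_TP (hLR : T_LR) {kx k : ℕ} {L : Type} (T : List (Idx kx k) → L) (hT : AX T)
    (hk : 1 ≤ k) (hC : Coll T) : Coll (TP T) := by
  intro i0 N
  obtain ⟨s, s', g, h1, h2, h3, h4, h5, h6, h7, h8⟩ := hC i0 (max N 1)
  exact ⟨s, s', g, h1, h2, fun i => le_trans (le_max_left N 1) (h3 i),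
    fun i => le_trans (le_max_left N 1) (h4 i), h5, h6,
    hLR kx k L T s s' g hT hk (fun i => le_trans (le_max_right N 1) (h3 i)) h7, h8⟩

theorem pf_TOPA (hTPX : T_TPX) (hLR : T_LR) (hAST : T_AST) (hSPT : T_SPT) (hNLK : T_NLK) :
    T_TOPA := by
  intro kx k L T hT hk hC hS
  exact hNLK kx k L T hT (List.finRange kx)
    (hAST kx k _ (TP T) (hTPX kx k L T hT) hk (coll_TP hLR T hT hk hC) (hSPT kx k L T hT hS))

end Pool.Agent.H69.FK
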